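import Pool.Agent.P8H70.TR.Stm2
import Pool.Agent.P8H52.TR.Bes
import Pool.Agent.P8H5.TR.Fac

/-!
# The sums of `conj hh` and `YY conj hh` (SML)
-/

set_option autoImplicit false
set_option linter.all false

open Complex MeasureTheory Polynomial Finset ComplexConjugate

namespace Pool.Agent.P8H7.TR

open Pool.Agent.P8H70.TR

/-- `exp (- i cs(x) / 4)` -/
noncomputable def EE (q : ℕ) [NeZero q] (x : ZMod q) : ℂ := cexp (((-(cs q x / 4) : ℝ) : ℂ) * I)

lemma EE_norm (q : ℕ) [NeZero q] (x : ZMod q) : ‖EE q x‖ = 1 := by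
  unfold EE
  exact Complex.norm_exp_ofReal_mul_I _

lemma sum_cs (q : ℕ) [NeZero q] (hq : 2 ≤ q) : ∑ x : ZMod q, cs q x = 0 := by
  have h1 := Pool.Agent.P8H5.TR.sum_conj_ch (q := q) hq
  have h2 := congrArg Complex.re h1
  rw [Complex.re_sum] at h2
  simp only [Complex.conj_re, Complex.zero_re] at h2
  exact h2

lemma exp_est (y : ℝ) (hy : |y| ≤ 1) :
    ‖cexp ((y : ℂ) * I) - (((1 - y ^ 2 / 2 : ℝ) : ℂ) + (y : ℂ) * I)‖ ≤ 2 / 9 * y ^ 2 := by
  have hn : ‖(y : ℂ) * I‖ = |y| := by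
    rw [norm_mul, Complex.norm_I, mul_one, Complex.norm_real, Real.norm_eq_abs]
  have h1 := Complex.exp_bound (x := (y : ℂ) * I) (by rw [hn]; exact hy) (n := 3) (by norm_num)
  rw [hn] at h1
  have h2 : ∑ m ∈ range 3, ((y : ℂ) * I) ^ m / (m.factorial : ℂ) = ((1 - y ^ 2 / 2 : ℝ) : ℂ) + (y : ℂ) * I := by
    rw [Finset.sum_range_succ, Finset.sum_range_succ, Finset.sum_range_succ, Finset.sum_range_zero]
    have h3 : ((y : ℂ) * I) ^ 2 = -((y : ℂ) ^ 2) := by
      rw [mul_pow, Complex.I_sq]; ring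
    rw [h3]
    simp only [pow_zero, pow_one, Nat.factorial_zero, Nat.factorial_one, Nat.factorial_two, Nat.cast_one,
      Nat.cast_ofNat]
    push_cast
    ring
  rw [h2] at h1
  refine h1.trans ?_
  have h4 : |y| ^ 3 ≤ y ^ 2 := by
    have h5 : |y| ^ 3 = |y| ^ 2 * |y| := by ring
    rw [h5, sq_abs]
    have := mul_le_mul_of_nonneg_left hy (sq_nonneg y)
    linarith
  have h6 : ((Nat.succ 3 : ℕ) : ℝ) * (((Nat.factorial 3 : ℕ) : ℝ) * ((3 : ℕ) : ℝ))⁻¹ = 2 / 9 := by
    norm_num [Nat.factorial]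
  rw [h6]
  linarith [mul_le_mul_of_nonneg_right h4 (by norm_num : (0 : ℝ) ≤ 2 / 9)]

lemma sum_EE (q : ℕ) [NeZero q] (hq : 3 ≤ q) : ‖∑ x : ZMod q, EE q x‖ ≤ 119 / 120 * q := by
  have hqR : (0 : ℝ) < q := by exact_mod_cast (by omega : 0 < q)
  set y : ZMod q → ℝ := fun x => -(cs q x / 4) with hy
  have hyabs : ∀ x, |y x| ≤ 1 := by
    intro x
    have h := Pool.Agent.P8H52.TR.cs_abs q x
    simp only [hy]
    rw [abs_neg, abs_div, abs_of_pos (by norm_num : (0 : ℝ) < 4)]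
    linarith
  have hysum : ∑ x : ZMod q, y x = 0 := by
    simp only [hy]
    rw [Finset.sum_neg_distrib, ← Finset.sum_div, sum_cs q (by omega)]
    simp
  have hysq : ∑ x : ZMod q, y x ^ 2 = (q : ℝ) / 32 := by
    have h1 : ∀ x : ZMod q, y x ^ 2 = cs q x ^ 2 / 16 := by
      intro x
      simp only [hy]
      ring
    rw [Finset.sum_congr rfl (fun x _ => h1 x), ← Finset.sum_div, Pool.Agent.P8H52.TR.sum_cs_sq q hq]
    ring
  have h1 : ∑ x : ZMod q, EE q x = ((∑ x : ZMod q, (1 - y x ^ 2 / 2) : ℝ) : ℂ) +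
      ∑ x : ZMod q, (cexp ((y x : ℂ) * I) - (((1 - y x ^ 2 / 2 : ℝ) : ℂ) + (y x : ℂ) * I)) := by
    have hE : ∑ x : ZMod q, (cexp ((y x : ℂ) * I) - (((1 - y x ^ 2 / 2 : ℝ) : ℂ) + (y x : ℂ) * I)) =
        ∑ x : ZMod q, cexp ((y x : ℂ) * I) -
          (∑ x : ZMod q, ((1 - y x ^ 2 / 2 : ℝ) : ℂ) + (∑ x : ZMod q, (y x : ℂ)) * I) := by
      rw [Finset.sum_sub_distrib, Finset.sum_add_distrib, ← Finset.sum_mul]
    have h2 : ∑ x : ZMod q, (y x : ℂ) = 0 := by
      rw [← Complex.ofReal_sum, hysum, Complex.ofReal_zero]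
    rw [hE, h2, zero_mul, add_zero, Complex.ofReal_sum]
    have h3 : ∑ x : ZMod q, EE q x = ∑ x : ZMod q, cexp ((y x : ℂ) * I) := rfl
    rw [h3]
    ring
  rw [h1]
  refine (norm_add_le _ _).trans ?_
  have h2 : ‖((∑ x : ZMod q, (1 - y x ^ 2 / 2) : ℝ) : ℂ)‖ = (q : ℝ) - q / 64 := by
    rw [Complex.norm_real, Real.norm_eq_abs]
    have h3 : ∑ x : ZMod q, (1 - y x ^ 2 / 2) = (q : ℝ) - q / 64 := by
      rw [Finset.sum_sub_distrib, ← Finset.sum_div, hysq, sum_const, card_univ, ZMod.card]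
      simp only [nsmul_eq_mul, mul_one]
      ring
    rw [h3, abs_of_nonneg]
    linarith
  have h3 : ‖∑ x : ZMod q, (cexp ((y x : ℂ) * I) - (((1 - y x ^ 2 / 2 : ℝ) : ℂ) + (y x : ℂ) * I))‖ ≤
      2 / 9 * ((q : ℝ) / 32) := by
    refine (norm_sum_le _ _).trans ?_
    rw [← hysq, Finset.mul_sum]
    exact Finset.sum_le_sum (fun x _ => exp_est (y x) (hyabs x))
  rw [h2]
  linarith

lemma conj_hh (q : ℕ) [NeZero q] {k : ℕ} (ω : Fin k → ZMod q) : conj (hh q ω) = ∏ i, EE q (ω i) := by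
  unfold hh EE
  rw [← Complex.exp_conj, ← Complex.exp_sum]
  congr 1
  rw [map_mul, Complex.conj_I, Complex.conj_ofReal, ← Finset.sum_mul]
  unfold YY
  push_cast
  rw [Finset.sum_neg_distrib, Finset.sum_div]
  ring

theorem sml : S_SML := by
  intro q _ k hq hk
  have hB := sum_EE q hq
  have hqR : (0 : ℝ) < q := by exact_mod_cast (by omega : 0 < q)
  constructor
  · rw [Finset.sum_congr rfl (fun ω _ => conj_hh q ω),
      Pool.Agent.P8H5.TR.prod_sum (fun (_ : Fin k) x => EE q x), Finset.prod_const, card_univ, Fintype.card_fin,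
      norm_pow, ← mul_pow]
    exact pow_le_pow_left₀ (norm_nonneg _) hB k
  · have h1 : ∀ ω : Fin k → ZMod q, (YY q ω : ℂ) * conj (hh q ω) =
        ∑ i : Fin k, ∏ l, (if l = i then (cs q (ω l) : ℂ) * EE q (ω l) else EE q (ω l)) := by
      intro ω
      rw [conj_hh]
      unfold YY
      rw [Complex.ofReal_sum, Finset.sum_mul]
      apply Finset.sum_congr rfl
      intro i _
      rw [← Finset.mul_prod_erase univ _ (mem_univ i), ← Finset.mul_prod_erase univ
        (fun l => if l = i then (cs q (ω l) : ℂ) * EE q (ω l) else EE q (ω l)) (mem_univ i), if_pos rfl]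
      have h2 : ∏ l ∈ univ.erase i, (if l = i then (cs q (ω l) : ℂ) * EE q (ω l) else EE q (ω l)) =
          ∏ l ∈ univ.erase i, EE q (ω l) := by
        apply Finset.prod_congr rfl
        intro l hl
        rw [if_neg (Finset.ne_of_mem_erase hl)]
      rw [h2, mul_assoc]
    rw [Finset.sum_congr rfl (fun ω _ => h1 ω), Finset.sum_comm]
    set A : ℂ := ∑ x : ZMod q, (cs q x : ℂ) * EE q x with hA
    set B : ℂ := ∑ x : ZMod q, EE q x with hBdef
    have hAn : ‖A‖ ≤ q := by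
      rw [hA]
      refine (norm_sum_le _ _).trans ?_
      have h2 : ∀ x ∈ (univ : Finset (ZMod q)), ‖(cs q x : ℂ) * EE q x‖ ≤ 1 := by
        intro x _
        rw [norm_mul, EE_norm, mul_one, Complex.norm_real, Real.norm_eq_abs]
        exact Pool.Agent.P8H52.TR.cs_abs q x
      refine (Finset.sum_le_sum h2).trans ?_
      rw [sum_const, card_univ, ZMod.card]
      simp
    have h3 : ∀ i : Fin k, ∑ ω : Fin k → ZMod q,
        ∏ l, (if l = i then (cs q (ω l) : ℂ) * EE q (ω l) else EE q (ω l)) = A * B ^ (k - 1) := by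
      intro i
      rw [Pool.Agent.P8H5.TR.prod_sum (fun (l : Fin k) x => if l = i then (cs q x : ℂ) * EE q x else EE q x)]
      rw [← Finset.mul_prod_erase univ _ (mem_univ i)]
      have h4 : ∑ x : ZMod q, (if i = i then (cs q x : ℂ) * EE q x else EE q x) = A := by
        rw [hA]
        apply Finset.sum_congr rfl
        intro x _
        rw [if_pos rfl]
      have h5 : ∏ l ∈ univ.erase i, ∑ x : ZMod q, (if l = i then (cs q x : ℂ) * EE q x else EE q x) = B ^ (k - 1) := by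
        have h6 : ∀ l ∈ (univ : Finset (Fin k)).erase i,
            ∑ x : ZMod q, (if l = i then (cs q x : ℂ) * EE q x else EE q x) = B := by
          intro l hl
          rw [hBdef]
          apply Finset.sum_congr rfl
          intro x _
          rw [if_neg (Finset.ne_of_mem_erase hl)]
        rw [Finset.prod_congr rfl h6, Finset.prod_const, Finset.card_erase_of_mem (mem_univ i), card_univ,
          Fintype.card_fin]
      rw [h5]
      congr 1
    rw [Finset.sum_congr rfl (fun i _ => h3 i), sum_const, card_univ, Fintype.card_fin, nsmul_eq_mul, norm_mul,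
      norm_mul, norm_pow]
    have h7 : ‖(k : ℂ)‖ = k := by
      rw [Complex.norm_natCast]
    rw [h7]
    have h8 : ‖B‖ ^ (k - 1) ≤ (119 / 120 * q) ^ (k - 1) := pow_le_pow_left₀ (norm_nonneg _) hB _
    have h9 : ‖A‖ * ‖B‖ ^ (k - 1) ≤ q * (119 / 120 * q) ^ (k - 1) :=
      mul_le_mul hAn h8 (by positivity) hqR.le
    have h10 : (q : ℝ) ^ k = q * (q : ℝ) ^ (k - 1) := by
      rw [← pow_succ']
      congr 1
      omega
    rw [h10]
    calc (k : ℝ) * (‖A‖ * ‖B‖ ^ (k - 1)) ≤ k * (q * (119 / 120 * q) ^ (k - 1)) :=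
          mul_le_mul_of_nonneg_left h9 (Nat.cast_nonneg _)
      _ = k * (119 / 120) ^ (k - 1) * (q * (q : ℝ) ^ (k - 1)) := by
          rw [mul_pow]; ring

end Pool.Agent.P8H7.TR
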